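import Pool.Agent.Helper6.LPA.St

/-!
# Project LPA (MP_5e9b96_nt), module ONQ: one `y`
-/

set_option autoImplicit false

namespace Pool.Agent.Helper2.LPA

open Finset
open Pool.Agent.Helper6.LP Pool.Agent.Helper6.LPA
open Pool.Agent.Helper60.LZ (js)
open Pool.Agent.Helper98.LM (QQ)

private theorem ff_congr {n n' y l : ℤ} (h : n ≡ n' [ZMOD l]) : ff n y ≡ ff n' y [ZMOD l] := by
  unfold ff fa fb
  exact ((h.sub_right y).add (h.mul_right y)).mul
    (((h.sub_right y).pow 2).add (h.mul_right (y ^ 2)))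

private theorem memS (P a y l m : ℕ) (hl : 0 < l) :
    m % l ∈ SS P a y l ↔ (l : ℤ) ∣ ff ((a : ℤ) + P * m) y := by
  unfold SS
  rw [mem_filter, mem_range]
  have h2 : ((a : ℤ) + P * m) ≡ (a : ℤ) + P * ((m % l : ℕ) : ℤ) [ZMOD (l : ℤ)] := by
    refine Int.ModEq.add_left _ (Int.ModEq.mul_left _ ?_)
    rw [Int.natCast_mod]
    exact (Int.mod_modEq _ _).symm
  have h3 := ff_congr (y := (y : ℤ)) h2
  rw [← Int.modEq_zero_iff_dvd, ← Int.modEq_zero_iff_dvd]
  constructor
  · rintro ⟨_, h⟩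
    exact h3.trans h
  · intro h
    exact ⟨Nat.mod_lt _ hl, h3.symm.trans h⟩

private theorem js_le (t l : ℕ) : js t l ≤ 1 := by
  unfold js
  rcases jacobiSym.trichotomy ((t : ℤ) ^ 2 - 4) l with h | h | h <;> rw [h] <;> norm_num

private theorem memQ (p w l : ℕ) (hp : 24 ≤ p) (h : l ∈ QQ p w) :
    l.Prime ∧ 12 ≤ l ∧ l ≤ w ∧ p < l := by
  unfold QQ at h
  rw [mem_filter, mem_Ioc] at h
  exact ⟨h.2, by omega, h.1.2, h.1.1⟩

theorem hONQ (hL : StLOP) : StONQ := by
  classical
  intro ε K B hS p P a y z w M T hT hp hpz hlP hy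
  have hdis : Disjoint (QQ p z) T := by
    rw [Finset.disjoint_left]
    intro l h1 h2
    have q1 := memQ p z l hp h1
    have q2 := memQ z w l (by omega) (hT h2)
    omega
  have h := hS z M (by omega) (QQ p z) T (SS P a y) (fun l hl => by
    obtain ⟨q1, q2, q3, q4⟩ := memQ p z l hp hl
    refine ⟨q1, q2, q3, ?_⟩
    have h1 := (hL P a l q1 (by omega) (fun hd => by have := hlP l q1 hd; omega)).1 y hy
    have h2 := js_le (y - 2) l
    have h3 : ((SS P a y l).card : ℝ) ≤ 6 := by linarith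
    exact_mod_cast h3) (fun l hl => (memQ z w l (by omega) (hT hl)).1) hdis (fun l _ s hs => by
      unfold SS at hs
      exact mem_range.1 (mem_filter.1 hs).1)
  have e : (Icc 1 M).filter (fun m : ℕ => Sf p z ((a : ℤ) + P * m) y ∧ Dv T ((a : ℤ) + P * m) y) =
      (Icc 1 M).filter (fun m : ℕ => (∀ l ∈ QQ p z, m % l ∉ SS P a y l) ∧
        ∀ l ∈ T, m % l ∈ SS P a y l) := by
    apply filter_congr
    intro m _
    unfold Sf Dv
    refine and_congr (forall₂_congr fun l hl => ?_) (forall₂_congr fun l hl => ?_)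
    · rw [memS P a y l m (by have := memQ p z l hp hl; omega)]
    · rw [memS P a y l m (by have := memQ z w l (by omega) (hT hl); omega)]
  unfold VV gg
  rw [← e] at h
  convert h using 5

end Pool.Agent.Helper2.LPA
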